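import Pool.Agent.GK.Final

/-!
# Sign of the total scalar curvature: Gauduchon versus Kähler metrics

Both questions (a) and (b) of MP_38461c_gt have a negative answer, in complex dimension 4.
-/

open scoped ContDiff Manifold
open GK

namespace Pool.Agent.Results.MP_38461c_gt.GauduchonKaehlerSign

/-- `M` is a compact connected complex manifold of dimension `n`: compact, Hausdorff, connected,
and the coordinate changes of its atlas (charts with values in `ℂⁿ`) are holomorphic. -/
def IsCompactComplexManifold (n : ℕ) (M : Type) [TopologicalSpace M] [ChartedSpace (V n) M] :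
    Prop :=
  CompactSpace M ∧ T2Space M ∧ ConnectedSpace M ∧ IsManifold 𝓘(ℂ, V n) ω M

/-- (a) There is a compact connected complex manifold that admits a Kähler metric and a Gauduchon
metric with positive total Chern scalar curvature, while all its Kähler metrics have negative total
scalar curvature.  (b) There is a compact connected complex manifold that admits a Kähler metric
and a Gauduchon metric with negative total Chern scalar curvature, while all its Kähler metrics
have non-negative total scalar curvature.  (In both cases the volume measure `ω^n / n!` used in the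
definition of the total exists.) -/
theorem result :
    (∃ (M : Type) (_ : TopologicalSpace M) (_ : ChartedSpace (V 4) M),
      IsCompactComplexManifold 4 M ∧ (∀ g : HermitianMetric 4 M, g.IsVolume g.volume) ∧
      (∃ g : HermitianMetric 4 M, g.IsKahler) ∧
      (∃ g : HermitianMetric 4 M, g.IsGauduchon ∧ 0 < g.total) ∧
      ∀ g : HermitianMetric 4 M, g.IsKahler → g.total < 0) ∧
    (∃ (M : Type) (_ : TopologicalSpace M) (_ : ChartedSpace (V 4) M),
      IsCompactComplexManifold 4 M ∧ (∀ g : HermitianMetric 4 M, g.IsVolume g.volume) ∧
      (∃ g : HermitianMetric 4 M, g.IsKahler) ∧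
      (∃ g : HermitianMetric 4 M, g.IsGauduchon ∧ g.total < 0) ∧
      ∀ g : HermitianMetric 4 M, g.IsKahler → 0 ≤ g.total) := by
  obtain ⟨⟨M, i1, i2, i3, i4, i5, i6, h1, h2, h3⟩, ⟨M', j1, j2, j3, j4, j5, j6, k1, k2, k3⟩⟩ :=
    GK.final
  refine ⟨⟨M, i1, i5, ⟨i3, i2, i4, i6⟩, ?_, h1, h2, h3⟩,
    ⟨M', j1, j5, ⟨j3, j2, j4, j6⟩, ?_, k1, k2, k3⟩⟩
  · intro g
    exact g.isVolume_volume
  · intro g
    exact g.isVolume_volume

end Pool.Agent.Results.MP_38461c_gt.GauduchonKaehlerSign
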